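import Pool.Agent.Helper92.AH.Defs

/-!
# BLOCK: the points on a block defined over a finite extension
-/

set_option autoImplicit false

namespace Pool.Agent.Helper92.AH

open MvPolynomial

section

set_option linter.unusedSectionVars false

variable {F K E : Type} [Field F] [Finite F] [Field K] [Algebra F K] [Field E] [Finite E]
  [Algebra F E] [Algebra E K] [IsScalarTower F E K] {N M : ℕ} {ι μ : Type}

/-- the substituted polynomials -/
noncomputable def block_sub (y0 : Fin M → E) (r : MvPolynomial (Fin N ⊕ Fin M) F) :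
    MvPolynomial (Fin N) E :=
  aeval (Sum.elim (fun a => (X a : MvPolynomial (Fin N) E)) (fun b => C (y0 b))) r

theorem block_sub_eval (y0 : Fin M → E) (r : MvPolynomial (Fin N ⊕ Fin M) F) (x : Fin N → K) :
    aeval x (block_sub y0 r) = aeval (Sum.elim x (fun b => algebraMap E K (y0 b))) r := by
  have h : ((aeval x : MvPolynomial (Fin N) E →ₐ[E] K).restrictScalars F).comp
      (aeval (Sum.elim (fun a => (X a : MvPolynomial (Fin N) E)) (fun b => C (y0 b)))) =
      (aeval (Sum.elim x (fun b => algebraMap E K (y0 b))) :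
        MvPolynomial (Fin N ⊕ Fin M) F →ₐ[F] K) := by
    apply MvPolynomial.algHom_ext
    intro i
    cases i with
    | inl a => simp
    | inr b => simp
  exact DFunLike.congr_fun h r

/-- the combined family -/
noncomputable def block_P (P : ι → MvPolynomial (Fin N) F) (R : μ → MvPolynomial (Fin N ⊕ Fin M) F)
    (y0 : Fin M → E) : ι ⊕ μ → MvPolynomial (Fin N) E :=
  Sum.elim (fun i => map (algebraMap F E) (P i)) (fun i => block_sub y0 (R i))

/-- the combined condition -/
def block_T (T : Set (Set ι)) (W : Set (Set μ)) : Set (Set (ι ⊕ μ)) :=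
  {S | {i | Sum.inl i ∈ S} ∈ T ∧ {i | Sum.inr i ∈ S} ∈ W}

theorem block_pts (P : ι → MvPolynomial (Fin N) F) (T : Set (Set ι))
    (R : μ → MvPolynomial (Fin N ⊕ Fin M) F) (W : Set (Set μ)) (y0 : Fin M → E)
    (x : Fin N → K) :
    x ∈ Pts (block_P P R y0) (block_T T W) K ↔
      x ∈ Pts P T K ∧ Inc R W x (fun b => algebraMap E K (y0 b)) := by
  have h1 : {i | Sum.inl i ∈ {j : ι ⊕ μ | aeval x (block_P P R y0 j) = 0}} =
      {i | aeval x (P i) = 0} := by
    ext i
    show aeval x (map (algebraMap F E) (P i)) = 0 ↔ aeval x (P i) = 0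
    rw [aeval_map_algebraMap]
  have h2 : {i | Sum.inr i ∈ {j : ι ⊕ μ | aeval x (block_P P R y0 j) = 0}} =
      {i | aeval (Sum.elim x (fun b => algebraMap E K (y0 b))) (R i) = 0} := by
    ext i
    show aeval x (block_sub y0 (R i)) = 0 ↔ _
    rw [block_sub_eval]
    rfl
  show _ ∈ T ∧ _ ∈ W ↔ _ ∈ T ∧ _ ∈ W
  rw [h1, h2]

theorem block_fx (P : ι → MvPolynomial (Fin N) F) (T : Set (Set ι))
    (R : μ → MvPolynomial (Fin N ⊕ Fin M) F) (W : Set (Set μ)) (y0 : Fin M → E) (m n : ℕ)
    (hE : Nat.card E = Nat.card F ^ m) :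
    fx (Nat.card E) n (Pts (block_P P R y0) (block_T T W) K) =
      {x | x ∈ fx (Nat.card F) (m * n) (Pts P T K) ∧
        Inc R W x (fun b => algebraMap E K (y0 b))} := by
  ext x
  show (x ∈ Pts (block_P P R y0) (block_T T W) K ∧ ∀ i, x i ^ (Nat.card E ^ n) = x i) ↔
    ((x ∈ Pts P T K ∧ ∀ i, x i ^ (Nat.card F ^ (m * n)) = x i) ∧ _)
  rw [block_pts, hE, ← pow_mul]
  tauto

end

theorem st_BLOCK (hPADICK : ST_PADICK) (hFIELD : ST_FIELD) : ST_BLOCK := by
  intro p _ F K _ _ _ _ _ _ N M ι μ _ _ P T R W m y hm hy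
  obtain ⟨E, iE, iFE, iA, hfr, ⟨φ⟩⟩ := hFIELD.1 F K m hm
  have hcard : Nat.card E = Nat.card F ^ m := by
    have h1 : Module.Finite F E := inferInstance
    rw [← hfr]
    exact Module.natCard_eq_pow_finrank
  have hex : ∀ j, ∃ w : E, φ w = y j := by
    intro j
    rw [hFIELD.2 F K E φ (y j), hfr]
    exact hy j
  choose y0 hy0 using hex
  let iEK : Algebra E K := φ.toRingHom.toAlgebra
  have hmap : ∀ w : E, algebraMap E K w = φ w := fun _ => rfl
  have iT : IsScalarTower F E K := by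
    apply IsScalarTower.of_algebraMap_eq
    intro z
    rw [hmap]
    exact (φ.commutes z).symm
  have iC : CharP E p := charP_of_injective_algebraMap (algebraMap F E).injective p
  obtain ⟨c, hc⟩ := hPADICK p E K N (ι ⊕ μ) (block_P P R y0) (block_T T W)
  refine ⟨c, fun s => ?_⟩
  obtain ⟨A, hA, hAn⟩ := hc s
  refine ⟨m * A, Nat.mul_pos hm hA, ?_⟩
  intro n hn hAd _
  obtain ⟨n', rfl⟩ : m ∣ n := Dvd.dvd.trans (Dvd.intro _ rfl) hAd
  have hn' : 0 < n' := Nat.pos_of_mul_pos_left hn
  have hAn' : A ∣ n' := (Nat.mul_dvd_mul_iff_left hm).1 hAd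
  have h1 := hAn n' hn' hAn'
  rw [block_fx P T R W y0 m n' hcard] at h1
  have h2 : (fun b => algebraMap E K (y0 b)) = y := funext fun b => hy0 b
  rw [h2] at h1
  exact h1

end Pool.Agent.Helper92.AH
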